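import Pool.Agent.W2helper57.LD.Stm

/-!
# Project LD, piece POLY: the estimator is a polynomial
-/

set_option autoImplicit false

open Filter Asymptotics Pool.Agent.N602.PC

namespace Pool.Agent.W2helper45.LD

open Pool.Agent.W2helper57.LD MvPolynomial

variable {n v N : ℕ}

lemma ev_mul (f g : MvPolynomial (Edge n) ℝ) (Y : Input n) : ev (f * g) Y = ev f Y * ev g Y := by
  simp only [ev, map_mul]

lemma ev_add (f g : MvPolynomial (Edge n) ℝ) (Y : Input n) : ev (f + g) Y = ev f Y + ev g Y := by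
  simp only [ev, map_add]

lemma ev_sub (f g : MvPolynomial (Edge n) ℝ) (Y : Input n) : ev (f - g) Y = ev f Y - ev g Y := by
  simp only [ev, map_sub]

lemma ev_one (Y : Input n) : ev (1 : MvPolynomial (Edge n) ℝ) Y = 1 := by
  simp only [ev, map_one]

lemma ev_C (c : ℝ) (Y : Input n) : ev (C c : MvPolynomial (Edge n) ℝ) Y = c := by
  simp only [ev, eval_C]

lemma ev_X (e : Edge n) (Y : Input n) : ev (X e : MvPolynomial (Edge n) ℝ) Y =
    if Y e = true then 1 else 0 := by
  simp only [ev, eval_X]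

lemma ev_prod {ι : Type} (s : Finset ι) (f : ι → MvPolynomial (Edge n) ℝ) (Y : Input n) :
    ev (∏ i ∈ s, f i) Y = ∏ i ∈ s, ev (f i) Y := by
  simp only [ev, map_prod]

lemma ev_sum {ι : Type} (s : Finset ι) (f : ι → MvPolynomial (Edge n) ℝ) (Y : Input n) :
    ev (∑ i ∈ s, f i) Y = ∑ i ∈ s, ev (f i) Y := by
  simp only [ev, map_sum]

/-- the sign of a pair -/
noncomputable def SG (a b : Fin n) : MvPolynomial (Edge n) ℝ :=
  if h : a < b then C 2 * X ⟨(a, b), h⟩ - 1 else if h : b < a then C 2 * X ⟨(b, a), h⟩ - 1 else 1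

lemma ev_SG (a b : Fin n) (Y : Input n) : ev (SG a b) Y = sg Y a b := by
  unfold SG sg
  split_ifs with h1 h2 h3 h4 h5
  · rw [ev_sub, ev_mul, ev_C, ev_X, ev_one, if_pos h2]
    norm_num
  · rw [ev_sub, ev_mul, ev_C, ev_X, ev_one, if_neg h2]
    norm_num
  · rw [ev_sub, ev_mul, ev_C, ev_X, ev_one, if_pos h4]
    norm_num
  · rw [ev_sub, ev_mul, ev_C, ev_X, ev_one, if_neg h4]
    norm_num
  · exact ev_one Y

lemma deg_lin (e : Edge n) : (C 2 * X e - 1 : MvPolynomial (Edge n) ℝ).totalDegree ≤ 1 := by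
  refine (totalDegree_sub _ _).trans (max_le ?_ ?_)
  · refine (totalDegree_mul _ _).trans ?_
    rw [totalDegree_C, zero_add]
    exact totalDegree_X_le _
  · rw [totalDegree_one]
    exact Nat.zero_le _
where
  totalDegree_X_le (e : Edge n) : (X e : MvPolynomial (Edge n) ℝ).totalDegree ≤ 1 := by
    rw [totalDegree_X]

lemma deg_SG (a b : Fin n) : (SG a b).totalDegree ≤ 1 := by
  unfold SG
  split_ifs
  · exact deg_lin _
  · exact deg_lin _
  · rw [totalDegree_one]
    exact Nat.zero_le _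

lemma deg_prod_le {ι : Type} (s : Finset ι) (f : ι → MvPolynomial (Edge n) ℝ) (d : ℕ)
    (h : ∀ i ∈ s, (f i).totalDegree ≤ d) : (∏ i ∈ s, f i).totalDegree ≤ s.card * d := by
  refine (totalDegree_finsetProd _ _).trans ?_
  refine (Finset.sum_le_sum h).trans ?_
  rw [Finset.sum_const, smul_eq_mul]

/-- the factor of a pattern -/
noncomputable def FG (r : Fin n) (u : Fin (v + 1) → Fin N → Fin n) (g : Fin (v + 1) → Fin N) :
    MvPolynomial (Edge n) ℝ :=
  SG r (u 0 (g 0)) * (∏ j : Fin v, SG (u 0 (g 0)) (u j.succ (g j.succ))) *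
    ∏ x ∈ prs v, (1 + SG (u x.1.succ (g x.1.succ)) (u x.2.succ (g x.2.succ)))

lemma ev_FG (r : Fin n) (u : Fin (v + 1) → Fin N → Fin n) (g : Fin (v + 1) → Fin N)
    (Y : Input n) : ev (FG r u g) Y = Fg r u g Y := by
  unfold FG Fg
  rw [ev_mul, ev_mul, ev_prod, ev_prod, ev_SG]
  congr 1
  · congr 1
    exact Finset.prod_congr rfl fun j _ => ev_SG _ _ _
  · exact Finset.prod_congr rfl fun x _ => by rw [ev_add, ev_one, ev_SG]

lemma deg_FG (r : Fin n) (u : Fin (v + 1) → Fin N → Fin n) (g : Fin (v + 1) → Fin N) :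
    (FG r u g).totalDegree ≤ (v + 1) ^ 2 := by
  unfold FG
  have h1 : (∏ j : Fin v, SG (u 0 (g 0)) (u j.succ (g j.succ))).totalDegree ≤ v := by
    refine (deg_prod_le _ _ 1 fun j _ => deg_SG _ _).trans ?_
    rw [Finset.card_univ, Fintype.card_fin, mul_one]
  have h2 : (∏ x ∈ prs v, (1 + SG (u x.1.succ (g x.1.succ)) (u x.2.succ (g x.2.succ))) :
      MvPolynomial (Edge n) ℝ).totalDegree ≤ v * v := by
    refine (deg_prod_le _ _ 1 fun x _ => ?_).trans ?_
    · refine (totalDegree_add _ _).trans (max_le ?_ (deg_SG _ _))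
      rw [totalDegree_one]
      exact Nat.zero_le _
    · rw [mul_one]
      refine (Finset.card_filter_le _ _).trans ?_
      rw [Finset.card_univ, Fintype.card_prod, Fintype.card_fin]
  refine (totalDegree_mul _ _).trans ?_
  refine (Nat.add_le_add (totalDegree_mul _ _) le_rfl).trans ?_
  have h3 := deg_SG (n := n) r (u 0 (g 0))
  nlinarith

/-- the statistic of a block -/
noncomputable def HP (r : Fin n) (u : Fin (v + 1) → Fin N → Fin n) : MvPolynomial (Edge n) ℝ :=
  ∑ g : Fin (v + 1) → Fin N, FG r u g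

lemma ev_HP (r : Fin n) (u : Fin (v + 1) → Fin N → Fin n) (Y : Input n) :
    ev (HP r u) Y = H r u Y := by
  unfold HP H
  rw [ev_sum]
  exact Finset.sum_congr rfl fun g _ => ev_FG _ _ _ _

lemma deg_HP (r : Fin n) (u : Fin (v + 1) → Fin N → Fin n) :
    (HP r u).totalDegree ≤ (v + 1) ^ 2 :=
  totalDegree_finsetSum_le fun g _ => deg_FG _ _ _

theorem s_poly : S_POLY := by
  intro n v N M r U _
  refine ⟨∏ j : Fin 3, (1 - ∏ l : Fin 2, (1 - C M⁻¹ * HP r (U j l))), ?_, fun Y => ?_⟩
  · refine (deg_prod_le _ _ (2 * (v + 1) ^ 2) fun j _ => ?_).trans ?_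
    · refine (totalDegree_sub _ _).trans (max_le ?_ ?_)
      · rw [totalDegree_one]
        exact Nat.zero_le _
      · refine (deg_prod_le _ _ ((v + 1) ^ 2) fun l _ => ?_).trans ?_
        · refine (totalDegree_sub _ _).trans (max_le ?_ ?_)
          · rw [totalDegree_one]
            exact Nat.zero_le _
          · refine (totalDegree_mul _ _).trans ?_
            rw [totalDegree_C, zero_add]
            exact deg_HP _ _
        · rw [Finset.card_univ, Fintype.card_fin]
    · rw [Finset.card_univ, Fintype.card_fin]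
      omega
  · rw [ev_prod, qf]
    refine Finset.prod_congr rfl fun j _ => ?_
    rw [ev_sub, ev_one, ev_prod]
    congr 1
    refine Finset.prod_congr rfl fun l _ => ?_
    rw [ev_sub, ev_one, ev_mul, ev_C, ev_HP]
    ring

end Pool.Agent.W2helper45.LD
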