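import Pool.Agent.W2helper57.LD.Stm

/-!
# Project LD, piece SEP: from the estimators of single vertices to both conditions
-/

set_option autoImplicit false

open Filter Asymptotics Pool.Agent.N602.PC

namespace Pool.Agent.W2helper45.LD

open Pool.Agent.W2helper57.LD

variable {n : ℕ}

lemma EP_sum {ι : Type} (s : Finset ι) (k : ℝ) (F : ι → Finset (Fin n) → Input n → ℝ) :
    EP k (fun S Y => ∑ i ∈ s, F i S Y) = ∑ i ∈ s, EP k (F i) := by
  simp only [EP_eq]
  rw [Finset.sum_comm]
  refine Finset.sum_congr rfl fun S _ => ?_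
  rw [EQ_sum, Finset.mul_sum]

lemma EP_sq_le {k : ℝ} (h0 : 0 ≤ k / n) (h1 : k / n ≤ 1) (F : Finset (Fin n) → Input n → ℝ) :
    EP k F ^ 2 ≤ EP k (fun S Y => F S Y ^ 2) := by
  have h := EP_nonneg h0 h1 (F := fun S Y => (F S Y - EP k F) ^ 2) (fun S Y => sq_nonneg _)
  have h2 : EP k (fun S Y => (F S Y - EP k F) ^ 2) =
      EP k (fun S Y => F S Y ^ 2) + (-2 * EP k F) * EP k F + EP k F ^ 2 := by
    have hc : EP k (fun _ (_ : Input n) => EP k F ^ 2) = EP k F ^ 2 := EP_const _ _
    calc EP k (fun S Y => (F S Y - EP k F) ^ 2)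
        = EP k (fun S Y => (F S Y ^ 2 + (-2 * EP k F) * F S Y) + EP k F ^ 2) := by
          congr 1; ext S Y; ring
      _ = _ := by rw [EP_add, EP_add, EP_const_mul, hc]
  nlinarith

lemma EP_card {k : ℝ} (hn : (0 : ℝ) < n) :
    EP k (fun S (_ : Input n) => ∑ r : Fin n, (if r ∈ S then (1 : ℝ) else 0)) = k := by
  rw [EP_S]
  have h1 := sum_wt_sind_sum (k / n) (fun _ : Fin n => (1 : ℝ)) (fun r => ({r} : Finset (Fin n)))
  simp only [one_mul, sind, Finset.singleton_subset_iff, Finset.card_singleton, pow_one,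
    Finset.sum_const, Finset.card_univ, Fintype.card_fin, nsmul_eq_mul] at h1
  rw [h1]
  field_simp

lemma EP_card_sq {k : ℝ} (hn : (0 : ℝ) < n) :
    EP k (fun S (_ : Input n) => (∑ r : Fin n, (if r ∈ S then (1 : ℝ) else 0) - k) ^ 2) ≤ k := by
  rw [EP_S]
  have h1 := sum_wt_sq (k / n) k (fun r : Fin n => ({r} : Finset (Fin n)))
  simp only [sind, Finset.singleton_subset_iff, Finset.card_singleton, pow_one,
    Finset.sum_const, Finset.card_univ, Fintype.card_fin, nsmul_eq_mul] at h1
  rw [h1]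
  have h2 : mom (k / n) (fun r : Fin n => ({r} : Finset (Fin n))) =
      n * (k / n) + n * (n - 1) * (k / n) ^ 2 := by
    have h3 : ∀ i j : Fin n, (k / n) ^ (({i} : Finset (Fin n)) ∪ {j}).card =
        (if j = i then (k / n) - (k / n) ^ 2 else 0) + (k / n) ^ 2 := by
      intro i j
      split_ifs with h
      · rw [h, Finset.union_idempotent, Finset.card_singleton]
        ring
      · rw [Finset.card_union_of_disjoint (by
          rw [Finset.disjoint_singleton]
          exact fun h' => h h'.symm), Finset.card_singleton, Finset.card_singleton]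
        ring
    rw [mom]
    simp_rw [h3, Finset.sum_add_distrib, Finset.sum_ite_eq', Finset.mem_univ, if_true,
      Finset.sum_const, Finset.card_univ, Fintype.card_fin, nsmul_eq_mul]
    ring
  rw [h2]
  have h4 : (n : ℝ) * (k / n) = k := by field_simp
  have h5 : (n : ℝ) * (n - 1) * (k / n) ^ 2 = k ^ 2 - k * (k / n) := by
    field_simp
  rw [h4, h5]
  have h6 : 0 ≤ k * (k / n) := by
    have : k * (k / n) = k ^ 2 / n := by ring
    rw [this]
    positivity
  nlinarith

theorem s_sep : S_SEP := by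
  intro n D k κ hn hk hkn hκ h
  have hn0 : (0 : ℝ) < n := by exact_mod_cast hn
  have h0 : 0 ≤ k / n := by positivity
  have h1 : k / n ≤ 1 := by rw [div_le_one hn0]; exact hkn
  choose q hqD hqP hqQ using h
  constructor
  · have hnn : ∀ f : {f : MvPolynomial (Edge n) ℝ // f.totalDegree ≤ D},
        0 ≤ EP k (fun S Y => (ev f.1 Y - xind S) ^ 2) := fun f =>
      EP_nonneg h0 h1 fun S Y => sq_nonneg _
    refine ⟨Real.iInf_nonneg hnn, ?_⟩
    refine (ciInf_le ⟨0, ?_⟩ (⟨q ⟨0, hn⟩, hqD _⟩ :
      {f : MvPolynomial (Edge n) ℝ // f.totalDegree ≤ D})).trans ?_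
    · rintro x ⟨f, rfl⟩
      exact hnn f
    · refine le_trans (le_of_eq ?_) (hqP ⟨0, hn⟩)
      congr 1
      ext S Y
      congr 2
      rw [xind]
      have h2 : (∃ v ∈ S, (v : ℕ) = 0) ↔ (⟨0, hn⟩ : Fin n) ∈ S := by
        constructor
        · rintro ⟨v, hv, hv0⟩
          have : v = ⟨0, hn⟩ := Fin.ext hv0
          rwa [← this]
        · intro hv
          exact ⟨_, hv, rfl⟩
      by_cases h3 : (⟨0, hn⟩ : Fin n) ∈ S
      · rw [if_pos h3, if_pos (h2.2 h3)]
      · rw [if_neg h3, if_neg (fun h4 => h3 (h2.1 h4))]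
  · obtain ⟨X, hX⟩ : ∃ X : Finset (Fin n) → ℝ, X = fun S => ∑ r : Fin n, (if r ∈ S then (1 : ℝ) else 0) :=
      ⟨_, rfl⟩
    have hev : ∀ Y, ev (∑ r, q r) Y = ∑ r, ev (q r) Y := by
      intro Y
      simp only [ev, map_sum]
    have hXk : EP k (fun S (_ : Input n) => X S) = k := by
      rw [hX]
      exact EP_card hn0
    have hXv : EP k (fun S (_ : Input n) => (X S - k) ^ 2) ≤ k := by
      rw [hX]
      exact EP_card_sq hn0
    have hFX : EP k (fun S Y => (ev (∑ r, q r) Y - X S) ^ 2) ≤ n ^ 2 * κ := by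
      calc EP k (fun S Y => (ev (∑ r, q r) Y - X S) ^ 2)
          ≤ EP k (fun S Y => (n : ℝ) * ∑ r : Fin n, (ev (q r) Y - if r ∈ S then 1 else 0) ^ 2) := by
            refine EP_mono h0 h1 fun S Z => ?_
            beta_reduce
            rw [hev, hX]
            beta_reduce
            rw [← Finset.sum_sub_distrib]
            have h2 := sq_sum_le_card_mul_sum_sq (s := (Finset.univ : Finset (Fin n)))
              (f := fun r => ev (q r) (plant S Z) - if r ∈ S then (1 : ℝ) else 0)
            rwa [Finset.card_univ, Fintype.card_fin] at h2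
        _ = n * ∑ r : Fin n, EP k (fun S Y => (ev (q r) Y - if r ∈ S then 1 else 0) ^ 2) := by
            rw [EP_const_mul, EP_sum]
        _ ≤ n * ∑ r : Fin n, κ := by
            refine mul_le_mul_of_nonneg_left (Finset.sum_le_sum fun r _ => hqP r) hn0.le
        _ = n ^ 2 * κ := by
            rw [Finset.sum_const, Finset.card_univ, Fintype.card_fin, nsmul_eq_mul]
            ring
    have hFQ : EQ (fun Y => ev (∑ r, q r) Y ^ 2) ≤ n ^ 2 * κ := by
      calc EQ (fun Y => ev (∑ r, q r) Y ^ 2)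
          ≤ EQ (fun Y => (n : ℝ) * ∑ r : Fin n, ev (q r) Y ^ 2) := by
            refine EQ_mono fun Y => ?_
            rw [hev]
            have h2 := sq_sum_le_card_mul_sum_sq (s := (Finset.univ : Finset (Fin n)))
              (f := fun r => ev (q r) Y)
            rwa [Finset.card_univ, Fintype.card_fin] at h2
        _ = n * ∑ r : Fin n, EQ (fun Y => ev (q r) Y ^ 2) := by
            rw [EQ_const_mul, EQ_sum]
        _ ≤ n * ∑ r : Fin n, κ := by
            refine mul_le_mul_of_nonneg_left (Finset.sum_le_sum fun r _ => hqQ r) hn0.le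
        _ = n ^ 2 * κ := by
            rw [Finset.sum_const, Finset.card_univ, Fintype.card_fin, nsmul_eq_mul]
            ring
    have hs : (n : ℝ) * Real.sqrt κ = Real.sqrt (n ^ 2 * κ) := by
      rw [Real.sqrt_mul (by positivity), Real.sqrt_sq hn0.le]
    refine ⟨∑ r, q r, ?_, ?_, ?_, ?_⟩
    · exact MvPolynomial.totalDegree_finsetSum_le fun r _ => hqD r
    · calc varP k (∑ r, q r) ≤ EP k (fun _ Y => (ev (∑ r, q r) Y - k) ^ 2) :=
            EP_var_le k (fun _ Y => ev (∑ r, q r) Y) k
        _ ≤ EP k (fun S Y => 2 * (ev (∑ r, q r) Y - X S) ^ 2 + 2 * (X S - k) ^ 2) := by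
            refine EP_mono h0 h1 fun S Z => ?_
            beta_reduce
            nlinarith [sq_nonneg ((ev (∑ r, q r) (plant S Z) - X S) - (X S - k))]
        _ = 2 * EP k (fun S Y => (ev (∑ r, q r) Y - X S) ^ 2) +
            2 * EP k (fun S (_ : Input n) => (X S - k) ^ 2) := by
            rw [EP_add, EP_const_mul, EP_const_mul k 2 (fun S (_ : Input n) => (X S - k) ^ 2)]
        _ ≤ 2 * n ^ 2 * κ + 2 * k := by nlinarith
    · calc varQ (∑ r, q r) ≤ EQ (fun Y => (ev (∑ r, q r) Y - 0) ^ 2) :=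
            EQ_var_le (fun Y => ev (∑ r, q r) Y) 0
        _ = EQ (fun Y => ev (∑ r, q r) Y ^ 2) := by simp only [sub_zero]
        _ ≤ n ^ 2 * κ := hFQ
    · have hQ : |meanQ (∑ r, q r)| ≤ n * Real.sqrt κ := by
        rw [hs]
        apply Real.abs_le_sqrt
        exact (EQ_sq_le (fun Y => ev (∑ r, q r) Y)).trans hFQ
      have hP : |meanP k (∑ r, q r) - k| ≤ n * Real.sqrt κ := by
        rw [hs]
        apply Real.abs_le_sqrt
        have h3 : meanP k (∑ r, q r) - k = EP k (fun S Y => ev (∑ r, q r) Y - X S) := by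
          have h4 : EP k (fun S Y => ev (∑ r, q r) Y - X S) =
              EP k (fun S Y => ev (∑ r, q r) Y + (-1) * X S) := by
            congr 1
            ext S Y
            ring
          rw [h4, EP_add, EP_const_mul k (-1) (fun S (_ : Input n) => X S), hXk, meanP]
          ring
        rw [h3]
        exact (EP_sq_le h0 h1 _).trans hFX
      have h5 := (abs_le.1 hP).1
      have h6 := (abs_le.1 hQ).2
      have h7 := le_abs_self (meanP k (∑ r, q r) - meanQ (∑ r, q r))
      linarith

end Pool.Agent.W2helper45.LD
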